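import Pool.Agent.Lib.MP_4043ba_gt.Ball

set_option autoImplicit false

open Filter Topology Real Pool.Agent.Lib.MP_4043ba_gt

namespace Pool.Agent.Results.MP_4043ba_gt.BallAllDims

/-- For the unit ball `B` of `ℝ^d`, `d ≥ 3`, put `β = √π Γ((d-1)/2) / (2 Γ(d/2))`. Then
`β k ≤ c_B(k)` for every `k`, and `c_B(k)/k → β`. -/
theorem result (d : ℕ) (hd : 3 ≤ d) :
    (∀ k : ℕ, √π * Gamma (((d : ℝ) - 1) / 2) / (2 * Gamma ((d : ℝ) / 2)) * k ≤
      plankConst (Metric.closedBall (0 : E d) 1) k) ∧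
    Tendsto (fun k : ℕ => plankConst (Metric.closedBall (0 : E d) 1) k / k) atTop
      (𝓝 (√π * Gamma (((d : ℝ) - 1) / 2) / (2 * Gamma ((d : ℝ) / 2)))) := by
  obtain ⟨n, rfl⟩ : ∃ n, d = n + 1 := ⟨d - 1, by omega⟩
  have hn : 2 ≤ n := by omega
  have h := ball_limit hn
  have hn' : (0 : ℝ) < n := by exact_mod_cast (by omega : 0 < n)
  have h1 : 0 < Gamma ((n : ℝ) / 2) := Gamma_pos_of_pos (by positivity)
  have h2 : 0 < Gamma (((n : ℝ) + 1) / 2) := Gamma_pos_of_pos (by positivity)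
  have h3 : 0 < √π := Real.sqrt_pos.mpr pi_pos
  have e : 1 / (2 * cdens n) =
      √π * Gamma ((((n + 1 : ℕ) : ℝ) - 1) / 2) / (2 * Gamma (((n + 1 : ℕ) : ℝ) / 2)) := by
    rw [cdens_eq hn]
    push_cast
    rw [add_sub_cancel_right]
    field_simp
  rw [e] at h
  exact h

end Pool.Agent.Results.MP_4043ba_gt.BallAllDims
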