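import Pool.Agent.Lib.MP_4043ba_gt.Dim

set_option autoImplicit false

open Filter Topology Pool.Agent.Lib.MP_4043ba_gt

namespace Pool.Agent.Results.MP_4043ba_gt.LimitInradius

/-- For every convex body `K` of `ℝ^2` or `ℝ^3`, with inradius `r` and minimal width `w`, and every
`k`, we have `(2r/w) k ≤ c_K(k) ≤ min (k, (2r/w) (k + d + 1))`; hence `c_K(k)/k → 2r/w`. -/
theorem result {d : ℕ} (hd : d = 2 ∨ d = 3) {K : Set (E d)} (hK : IsConvexBody K) :
    (∀ k : ℕ, 2 * inradius K / minWidth K * k ≤ plankConst K k ∧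
      plankConst K k ≤ min (k : ℝ) (2 * inradius K / minWidth K * (k + d + 1))) ∧
    Tendsto (fun k : ℕ => plankConst K k / k) atTop (𝓝 (2 * inradius K / minWidth K)) := by
  have hd0 : 0 < d := by omega
  have hd3 : d ≤ 3 := by omega
  have hw := minWidth_pos hd0 hK
  have hr := inradius_pos hd0 hK
  have hlow : ∀ k : ℕ, 2 * inradius K / minWidth K * k ≤ plankConst K k := fun k =>
    le_plankConst_inradius hd0 hd3 hK k
  have hup : ∀ k : ℕ, plankConst K k ≤ 2 * inradius K / minWidth K * (k + d + 1) := fun k =>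
    plankConst_le_inradius hd0 hK k
  refine ⟨fun k => ⟨hlow k, le_min (plankConst_le_self hd0 hK k) (hup k)⟩, ?_⟩
  set q : ℝ := 2 * inradius K / minWidth K with hq
  have hq0 : 0 ≤ q := by positivity
  have h1 : Tendsto (fun k : ℕ => q + q * (d + 1) / (k : ℝ)) atTop (𝓝 (q + 0)) :=
    tendsto_const_nhds.add (tendsto_const_div_atTop_nhds_zero_nat _)
  rw [add_zero] at h1
  refine tendsto_of_tendsto_of_tendsto_of_le_of_le' tendsto_const_nhds h1 ?_ ?_
  · filter_upwards [eventually_gt_atTop 0] with k hk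
    have hk' : (0 : ℝ) < k := by exact_mod_cast hk
    rw [le_div_iff₀ hk']
    exact hlow k
  · filter_upwards [eventually_gt_atTop 0] with k hk
    have hk' : (0 : ℝ) < k := by exact_mod_cast hk
    rw [div_le_iff₀ hk']
    refine (hup k).trans (le_of_eq ?_)
    field_simp
    ring

end Pool.Agent.Results.MP_4043ba_gt.LimitInradius
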