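import Pool.Agent.Lib.MP_4043ba_gt.Dim

set_option autoImplicit false

open Filter Topology Pool.Agent.Lib.MP_4043ba_gt

namespace Pool.Agent.Results.MP_4043ba_gt.LimitPlaneSpace

/-- `2k/3 ≤ c_2(k) ≤ (2k+1)/3` and `k/√3 ≤ c_3(k) ≤ (k+1)/√3` for all `k ≥ 1`; hence
`c_2(k)/k → 2/3` and `c_3(k)/k → 1/√3`. -/
theorem result :
    (∀ k : ℕ, 1 ≤ k → 2 * (k : ℝ) / 3 ≤ plankConstDim 2 k ∧
      plankConstDim 2 k ≤ (2 * k + 1) / 3) ∧
    (∀ k : ℕ, 1 ≤ k → (k : ℝ) / √3 ≤ plankConstDim 3 k ∧ plankConstDim 3 k ≤ (k + 1) / √3) ∧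
    Tendsto (fun k : ℕ => plankConstDim 2 k / k) atTop (𝓝 (2 / 3)) ∧
    Tendsto (fun k : ℕ => plankConstDim 3 k / k) atTop (𝓝 (1 / √3)) := by
  have h3' : 0 < √3 := Real.sqrt_pos.mpr (by norm_num)
  have h2 : ∀ k : ℕ, 1 ≤ k → 2 * (k : ℝ) / 3 ≤ plankConstDim 2 k ∧
      plankConstDim 2 k ≤ (2 * k + 1) / 3 := fun k hk =>
    ⟨by have := two_thirds_le k; linarith, plankConstDim_two_le hk⟩
  have h3 : ∀ k : ℕ, 1 ≤ k → (k : ℝ) / √3 ≤ plankConstDim 3 k ∧
      plankConstDim 3 k ≤ (k + 1) / √3 := by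
    intro k hk
    refine ⟨inv_sqrt_three_le k, (plankConstDim_le_simplex (by norm_num) hk).trans (le_of_eq ?_)⟩
    push_cast
    field_simp
    ring
  refine ⟨h2, h3, ?_, ?_⟩
  · have h1 : Tendsto (fun k : ℕ => 2 / 3 + 1 / 3 / (k : ℝ)) atTop (𝓝 (2 / 3 + 0)) :=
      tendsto_const_nhds.add (tendsto_const_div_atTop_nhds_zero_nat _)
    rw [add_zero] at h1
    refine tendsto_of_tendsto_of_tendsto_of_le_of_le' tendsto_const_nhds h1 ?_ ?_
    · filter_upwards [eventually_ge_atTop 1] with k hk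
      have hk' : (0 : ℝ) < k := by exact_mod_cast hk
      rw [le_div_iff₀ hk']
      have := (h2 k hk).1
      linarith
    · filter_upwards [eventually_ge_atTop 1] with k hk
      have hk' : (0 : ℝ) < k := by exact_mod_cast hk
      rw [div_le_iff₀ hk']
      refine (h2 k hk).2.trans (le_of_eq ?_)
      field_simp
  · have h1 : Tendsto (fun k : ℕ => 1 / √3 + 1 / √3 / (k : ℝ)) atTop (𝓝 (1 / √3 + 0)) :=
      tendsto_const_nhds.add (tendsto_const_div_atTop_nhds_zero_nat _)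
    rw [add_zero] at h1
    refine tendsto_of_tendsto_of_tendsto_of_le_of_le' tendsto_const_nhds h1 ?_ ?_
    · filter_upwards [eventually_ge_atTop 1] with k hk
      have hk' : (0 : ℝ) < k := by exact_mod_cast hk
      rw [le_div_iff₀ hk']
      refine le_trans (le_of_eq ?_) (h3 k hk).1
      ring
    · filter_upwards [eventually_ge_atTop 1] with k hk
      have hk' : (0 : ℝ) < k := by exact_mod_cast hk
      rw [div_le_iff₀ hk']
      refine (h3 k hk).2.trans (le_of_eq ?_)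
      field_simp

end Pool.Agent.Results.MP_4043ba_gt.LimitPlaneSpace
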