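import Pool.Agent.Lib.MP_4043ba_gt.Fekete

set_option autoImplicit false

open Filter Topology Real Pool.Agent.Lib.MP_4043ba_gt

namespace Pool.Agent.Results.MP_4043ba_gt.OrderAllDims

/-- In every dimension `d ≥ 2` the limit `L = lim c_d(k)/k` exists and
`√(2π) / (8 √(d+1)) ≤ L ≤ 1/√d`; moreover `L k ≤ c_d(k) ≤ (2k + d - 1)/(2√d)` for all `k ≥ 1`. -/
theorem result (d : ℕ) (hd : 2 ≤ d) :
    ∃ L : ℝ, √(2 * π) / (8 * √((d : ℝ) + 1)) ≤ L ∧ L ≤ 1 / √(d : ℝ) ∧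
      (∀ k : ℕ, 1 ≤ k → L * k ≤ plankConstDim d k ∧
        plankConstDim d k ≤ (2 * k + d - 1) / (2 * √(d : ℝ))) ∧
      Tendsto (fun k : ℕ => plankConstDim d k / k) atTop (𝓝 L) := by
  have hd0 : 0 < d := by omega
  obtain ⟨n, rfl⟩ : ∃ n, d = n + 1 := ⟨d - 1, by omega⟩
  have hn : 1 ≤ n := by omega
  obtain ⟨L, hL1, hL2⟩ := exists_limit_dim hd0
  have hsd : 0 < √((n + 1 : ℕ) : ℝ) := Real.sqrt_pos.mpr (by positivity)
  refine ⟨L, ?_, ?_, fun k hk => ⟨hL1 k, plankConstDim_le_simplex hd0 hk⟩, hL2⟩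
  · refine ge_of_tendsto hL2 ?_
    filter_upwards [eventually_gt_atTop 0] with k hk
    have hk' : (0 : ℝ) < k := by exact_mod_cast hk
    rw [le_div_iff₀ hk']
    refine le_plankConstDim hd0 fun K hK => ?_
    have h := le_plankConst_general n hn hK k
    have e : ((n + 1 : ℕ) : ℝ) + 1 = (n : ℝ) + 2 := by push_cast; ring
    rw [e]
    exact h
  · have h1 : Tendsto (fun k : ℕ => 1 / √((n + 1 : ℕ) : ℝ) +
        (((n + 1 : ℕ) : ℝ) - 1) / (2 * √((n + 1 : ℕ) : ℝ)) / (k : ℝ)) atTop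
        (𝓝 (1 / √((n + 1 : ℕ) : ℝ) + 0)) :=
      tendsto_const_nhds.add (tendsto_const_div_atTop_nhds_zero_nat _)
    rw [add_zero] at h1
    refine le_of_tendsto_of_tendsto hL2 h1 ?_
    filter_upwards [eventually_ge_atTop 1] with k hk
    have hk' : (0 : ℝ) < k := by exact_mod_cast hk
    rw [div_le_iff₀ hk']
    refine (plankConstDim_le_simplex hd0 hk).trans (le_of_eq ?_)
    field_simp
    ring

end Pool.Agent.Results.MP_4043ba_gt.OrderAllDims
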